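import Pool.Agent.N138.SU.Fin
import Pool.Agent.N138.SU.W3

set_option autoImplicit false

/-! # Denef's question for every prime: iterated Thom-Sebastiani sums `f(x) + G(y)`

`f(x_1, x_2)` an arbitrary plane curve, `G(y)` weighted homogeneous with the origin as its only
critical point, e.g. `f(x_1, x_2) + c_1 y_1 ^ {N_1} + ... + c_k y_k ^ {N_k}`: see
`Pool/Agent/N138/SU/Cl.lean` for the class `Cl false` of ideals (given by finitely many generators
with rational coefficients), of polynomials and of polynomials `F` to which `G(y)` may be added. It
is the smallest class such that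
* `susp` (the third kind) contains the plane curves, the weighted homogeneous `G` with an isolated
  critical point (`IsWH`), the sums `F(x) + G(y)` for `F` in `susp`, the polynomials
  `∑ y_j f_j(x)` and `∑ y_j f_j(x) + g(z)` for an ideal `(f_j)` of the class and `g` in `susp`, the
  products in disjoint sets of variables, and is closed under dropping unused variables and under
  renaming;
* `poly` (the second kind) contains `susp`, is closed under the same Thom-Sebastiani sums
  `∑ y_j f_j(x) + g(z)` and products, and contains the products of powers
  `h(x) ∏_t (∑_j y_{t, j} f_{t, j}(x)) ^ a_t` if the ideal `h ∏_t (f_{t, j})_j ^ a_t` is in the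
  class, and the `F` such that the ideal `(F)` is in the class and `(s + 1) ^ 2` divides all
  Bernstein-Sato polynomials of `F`;
* `ideal` (the first kind) contains `poly`, the powers of the polynomials in `poly`, the ideals of
  the class `Good false` (`Pool/Agent/Y230/PS/Defs.lean`, among them all nonzero ideals of
  `ℚ[x, y]`), the monomial ideals, the powers `h(x) (f_0(x) + ∑ y_j f_j(x)) ^ a`, `x = (x_1, x_2)`,
  and is closed under sums and products of ideals in disjoint sets of variables.

So for instance, for arbitrary plane curves `f`, `f'`, `f''`,
`(f(x_1, x_2) + y_1 ^ {N_1} + y_2 ^ {N_2}) (f'(u_1, u_2) + z ^ M) + w_1 f''(v_1, v_2) + t ^ K`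
is in the class.

For every polynomial `F` with integer coefficients such that the ideal `(F)` is in the class, in any
number of variables, and for EVERY prime `p` (no prime is excluded, the reduction modulo `p` may be
arbitrarily bad), the Poincare series of `F` is rational, and `t_0 = -log |T_0| / log p` is a root of
`b_F` for every pole `T_0`.

Method. The zeta functions of `F(x) + G(y)` involve the zeta functions of `F` TWISTED by all
characters `χ` of `ℤ_p ^ *`. `Pool/Agent/N138/SU`:
* the twisted zeta functions of plane curves, for every prime and every character: the real parts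
  of the poles are roots of `b_f(s)`, and of `b_f(s) / (s + 1)` if `χ` is not trivial (`Locx`,
  `Mainx`: the tree of the infinitely near points);
* exponential sums: `E_{F + G} = E_F E_G` where `E_G(u p ^ (-e))` is locally constant in the unit
  `u`, uniformly in `e`, and satisfies `p ^ |w| E_G(u p ^ (-e - D)) = E_G(u p ^ (-e))` for large `e`
  (`W1`), so every pole of a twisted zeta function of `F + G` is `T_1 T_2`, `T_1` a pole for `F`,
  `T_2 ^ D = p ^ |w|`, that is, the real part is shifted by `-|w| / D`;
* functional equations: integration of `f^s`, `f = F(x) + G(y)`, over a cycle in the `y`-space: there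
  is a linear form `L` on `ℂ[y]` with `L(∂_i h) = L(∂_i G · h)`, `L(1) = 1` (`W4a`, `W4b`: Koszul
  complex), and it maps a functional equation of `F + G` to a microlocal functional equation of `F`
  (`W3`); so `b_{F + G}(s) = (s + 1) b'(s)`, where `(s + 1) b'(s - |w| / D)` satisfies a functional
  equation of `F`. -/

namespace Pool.Agent.N138.SU.Old.IteratedThomSebastiani

open MvPolynomial Pool.Agent.W427.SMC Pool.Agent.H628R4.TP Pool.Agent.N138.SU

/-- **Denef's question for the class `Cl` and every prime `p`.** Let `(F)` be in the class, let `b`
satisfy a functional equation `b(s) F ^ s = P(s) F ^ (s + 1)`, for instance `b = b_F`, and let `p`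
be a prime. The Poincare series of `F` is the expansion at `0` of a rational function `Φ`, and
`b(-log |T₀| / log p) = 0` for every pole `T₀` of `Φ`, that is, for every root `T₀` of the reduced
denominator of `Φ`. -/
theorem result {V : Type} [Fintype V] (F : MvPolynomial V ℤ)
    (hF : Cl false .ideal ⟨V, Fin 1, fun _ => map (Int.castRingHom ℚ) F⟩) (p : ℕ) [Fact p.Prime]
    (b : Polynomial ℂ) (hb : IsBFunction (map (Int.castRingHom ℂ) F) b) :
    ∃ Φ : RatFunc ℂ,
      ((Φ.denom : Polynomial ℂ) : PowerSeries ℂ) * poincare p F =
        ((Φ.num : Polynomial ℂ) : PowerSeries ℂ) ∧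
      ∀ T₀ : ℂ, Φ.denom.eval T₀ = 0 →
        b.eval ((-Real.log ‖T₀‖ / Real.log p : ℝ) : ℂ) = 0 :=
  cl_poin W3.t F hF b hb

end Pool.Agent.N138.SU.Old.IteratedThomSebastiani
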