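import Pool.Agent.N138.SU.Fin
import Pool.Agent.N138.SU.W3

set_option autoImplicit false

/-! # The orders of the poles, for every prime: iterated Thom-Sebastiani sums `f(x) + G(y)`

`f(x_1, x_2)` an arbitrary plane curve, `G(y)` weighted homogeneous with the origin as its only
critical point, e.g. `f(x_1, x_2) + c_1 y_1 ^ {N_1} + ... + c_k y_k ^ {N_k}`. The class `Cl true` of
ideals, polynomials and polynomials to which `G(y)` may be added is defined in
`Pool/Agent/N138/SU/Cl.lean`. It is the smallest class such that
* `susp` (the third kind) contains the plane curves, the weighted homogeneous `G` with an isolated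
  critical point (`IsWH`), the sums `F(x) + G(y)` for `F` in `susp`, the polynomials
  `∑ y_j f_j(x)` and `∑ y_j f_j(x) + g(z)` for an ideal `(f_j)` of the class and `g` in `susp`, the
  products in disjoint sets of variables, and is closed under dropping unused variables and under
  renaming;
* `poly` (the second kind) contains `susp`, is closed under the same Thom-Sebastiani sums
  `∑ y_j f_j(x) + g(z)` and products, and contains the products of powers
  `h(x) ∏_t (∑_j y_{t, j} f_{t, j}(x)) ^ a_t` if the ideal `h ∏_t (f_{t, j})_j ^ a_t` is in the
  class;
* `ideal` (the first kind) contains `poly`, the powers of the polynomials in `poly`, the ideals of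
  the class `Good true` (`Pool/Agent/Y230/PS/Defs.lean`, among them all nonzero ideals of
  `ℚ[x, y]`), the monomial ideals, and is closed under sums and products of ideals in disjoint sets
  of variables.

For every polynomial `F` with integer coefficients such that the ideal `(F)` is in the class and for
EVERY prime `p`, the order of a pole `s_0` of the zeta function of `F` is at most the multiplicity of
`Re s_0` as a root of `b_F`. In particular (i) and (ii) of Q1 hold, with `p_0 = 2`.

Method: as in `MP_5d9b3c_ag.IteratedThomSebastiani`, now with the orders of the poles and the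
multiplicities of the roots. New are the orders of the poles of the TWISTED zeta functions of a
plane curve `f`, for every prime `p` and every nontrivial character `χ` of `ℤ_p ^ *`: the order is at
most the multiplicity of the root of `b_f(s) / (s + 1)` (`Pool/Agent/N138/SU/W5.lean`), and the
transfer of the multiplicities by the sums `F(x) + G(y)` (`WA`-`WD`). -/

namespace Pool.Agent.N138.SU.Old.IteratedThomSebastianiOrders

open MvPolynomial Pool.Agent.W427.SMC Pool.Agent.H628R4.TP Pool.Agent.N138.SU

/-- **(i) and (ii) for the class `Cl true` and every prime `p`.** Let `(F)` be in the class, let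
`b ≠ 0` satisfy a functional equation `b(s) F ^ s = P(s) F ^ (s + 1)`, for instance `b = b_F`, and
let `Z` be the meromorphic continuation of `Z_p(F; s)`. The order of `Z` at `s₀` is at least `-μ`,
where `μ` is the multiplicity of `Re s₀` as a root of `b`: the real part of a pole of order `m ≥ 1`
is a root of multiplicity at least `m` of `b`. -/
theorem result {V : Type} [Fintype V] (F : MvPolynomial V ℤ)
    (hF : Cl true .ideal ⟨V, Fin 1, fun _ => map (Int.castRingHom ℚ) F⟩) (p : ℕ) [Fact p.Prime]
    (b : Polynomial ℂ) (hb0 : b ≠ 0) (hb : IsBFunction (map (Int.castRingHom ℂ) F) b)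
    (Z : ℂ → ℂ) (hZ : MeromorphicOn Z Set.univ)
    (hZp : ∀ s : ℂ, 0 < s.re → Z s = igusaZeta p F s) (s₀ : ℂ) :
    ((-(b.rootMultiplicity (s₀.re : ℂ) : ℤ) : ℤ) : WithTop ℤ) ≤ meromorphicOrderAt Z s₀ :=
  cl_orders W3.t F hF b hb0 hb Z hZ hZp s₀

end Pool.Agent.N138.SU.Old.IteratedThomSebastianiOrders
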